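import Pool.Agent.Q67.Mid.Base

/-!
# The product with a curve of positive genus, with coefficients
-/

open CategoryTheory AlgebraicGeometry Finset

universe u v

namespace Pool.Agent.Q67.Mid

open Pool.Agent.H914 Pool.Agent.W534 Pool.Agent.W537 Pool.Agent.TH720.LB VarClass Obj
  WeilCohomology

variable {k : Type u} [Field k] {𝒱 : VarClass k} {ops : CycleOps 𝒱}
  {W : WeilCohomology.{u, v} ops} {X C : 𝒱.Obj} {D : X.Cycles} {h : C.Cycles}

section curve

variable (hC : IsCurveLike W C h)
include hC

/-- the basic computation, for a class instead of a cycle -/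
lemma curve_push_cl (hD : X.IsCyc 1 D) {i w : ℕ} {γ : W.H ((X.prod C).prod (X.prod C))}
    (hz : ∀ y ∈ W.gr (X.prod C) (i + 1), W.corr (γ) (W.cl _ (sumDiv ops D h) ^ w * y) = y)
    {a : W.H X} (ha : a ∈ W.gr X i) {d : W.H (C.prod C)} (hd : d ∈ oddSpan W C) :
    W.push (snd (X.prod C) (X.prod C) ≫ fst X C) (γ * W.map (kap X C) d *
      W.map (fst (X.prod C) (X.prod C) ≫ fst X C) (W.cl X D ^ w * a)) =
        W.tr C (W.map (diag C) d) • a := by
  induction hd using Submodule.span_induction with
  | zero => simp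
  | add x y _ _ hx hy =>
    rw [map_add, mul_add, add_mul, map_add, hx, hy, map_add, map_add, add_smul]
  | smul r x _ hx =>
    rw [map_smul, mul_smul_comm, smul_mul_assoc, map_smul, hx, map_smul, map_smul, smul_smul,
      smul_eq_mul]
  | mem x hx =>
    obtain ⟨b, hb, c, hc, rfl⟩ := hx
    have hξw : W.cl X D ^ w * a ∈ W.gr X (2 * w + i) :=
      W.mul_mem (pow_mem' (cl_div hD) w) ha
    have e1 : W.map (kap X C) (W.map (fst C C) b * W.map (snd C C) c) =
        W.map (fst (X.prod C) (X.prod C)) (W.map (snd X C) b) *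
          W.map (snd (X.prod C) (X.prod C)) (W.map (snd X C) c) := by
      rw [map_mul (W.map (kap X C)), ← W.map_comp, ← W.map_comp, kap, Obj.lift_fst, Obj.lift_snd,
        W.map_comp, W.map_comp]
    have e2 : W.map (diag C) (W.map (fst C C) b * W.map (snd C C) c) = b * c := by
      have k1 : diag C ≫ snd C C = 𝟙 C := Obj.lift_snd _ _
      have k2 : diag C ≫ fst C C = 𝟙 C := Obj.lift_fst _ _
      rw [map_mul (W.map (diag C)), ← W.map_comp, ← W.map_comp, k1, k2, W.map_id, W.map_id]
    have hm : W.map (snd X C) b * W.map (fst X C) a ∈ W.gr (X.prod C) (i + 1) := by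
      have := W.mul_mem (W.map_mem (snd X C) hb) (W.map_mem (fst X C) ha)
      rwa [add_comm] at this
    -- the push-forward to the second factor
    have e3 : W.push (snd (X.prod C) (X.prod C)) (γ *
        (W.map (fst (X.prod C) (X.prod C)) (W.map (snd X C) b) *
          W.map (snd (X.prod C) (X.prod C)) (W.map (snd X C) c)) *
        W.map (fst (X.prod C) (X.prod C)) (W.map (fst X C) (W.cl X D ^ w * a))) =
        (-1 : W.K) ^ i • (W.map (snd X C) b * W.map (fst X C) a * W.map (snd X C) c) := by
      have k1 : γ *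
          (W.map (fst (X.prod C) (X.prod C)) (W.map (snd X C) b) *
            W.map (snd (X.prod C) (X.prod C)) (W.map (snd X C) c)) *
          W.map (fst (X.prod C) (X.prod C)) (W.map (fst X C) (W.cl X D ^ w * a)) =
          (-1 : W.K) ^ i • ((γ * W.map (fst (X.prod C) (X.prod C))
            (W.cl _ (sumDiv ops D h) ^ w * (W.map (snd X C) b * W.map (fst X C) a))) *
              W.map (snd (X.prod C) (X.prod C)) (W.map (snd X C) c)) := by
        rw [curve_mul hC hD hb, mul_assoc (γ), mul_assoc
          (W.map (fst (X.prod C) (X.prod C)) (W.map (snd X C) b)),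
          W.comm (W.map_mem (snd (X.prod C) (X.prod C)) (W.map_mem (snd X C) hc))
            (W.map_mem (fst (X.prod C) (X.prod C)) (W.map_mem (fst X C) hξw)),
          map_mul (W.map (fst (X.prod C) (X.prod C)))]
        have hs : (-1 : W.K) ^ (1 * (2 * w + i)) = (-1) ^ i := by
          rw [one_mul, pow_add, pow_mul]; simp
        rw [hs, mul_smul_comm, mul_smul_comm]
        simp only [mul_assoc]
      rw [k1, map_smul, W.push_mul, ← corr_apply, hz _ hm]
    rw [e1, e2, W.map_comp, W.push_comp, e3, map_smul]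
    have e4 : W.map (snd X C) b * W.map (fst X C) a * W.map (snd X C) c =
        (-1 : W.K) ^ i • (W.map (snd X C) (b * c) * W.map (fst X C) a) := by
      rw [mul_assoc, W.comm (W.map_mem (fst X C) ha) (W.map_mem (snd X C) hc), mul_one,
        mul_smul_comm, ← mul_assoc, ← map_mul (W.map (snd X C))]
    have hbc0 : b * c ∈ W.gr C (1 + 1) := W.mul_mem hb hc
    have hbc : b * c ∈ W.gr C (2 * 1) := hbc0
    rw [e4, map_smul, push_fst_mul hbc, smul_smul, smul_smul, ← pow_add, ← two_mul, pow_mul]
    simp

/-- Hard Lefschetz for the curve. -/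
lemma hl_curve : HardLefschetz W C h := by
  refine TH132.A.hardLefschetz_of_inj hC.div fun i hi a ha h0 => ?_
  rw [LinearMap.pow_mulLeft, LinearMap.mulLeft_apply, hC.dim] at h0
  rw [hC.dim] at hi
  interval_cases i
  · rw [pow_one] at h0
    rw [W.gr_zero, Submodule.mem_span_singleton] at ha
    obtain ⟨r, rfl⟩ := ha
    have h1 := congrArg (W.tr C) h0
    rw [mul_smul_comm, mul_one, map_smul, hC.deg, map_zero, smul_eq_mul, mul_one] at h1
    rw [h1, zero_smul]
  · rwa [Nat.sub_self, pow_zero, one_mul] at h0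

/-- Hard Lefschetz for the product with the curve. -/
lemma hl_prodC (hD : X.IsCyc 1 D) (hHL : HardLefschetz W X D) :
    HardLefschetz W (X.prod C) (sumDiv ops D h) :=
  TH125.Gal.hardLefschetz_prod hD hC.div hHL (hl_curve hC)

/-- **Injective operators on `X × C` give injective operators on `X`.** -/
theorem spanInjective_of_curve (hD : X.IsCyc 1 D) (hHL : HardLefschetz W X D) {c : ℕ}
    (hc : c ≤ X.dim) (hs : SpanInjective W (X.prod C) c) : SpanInjective W X c := by
  have hdim : (X.prod C).dim = X.dim + 1 := by rw [dim_prod X C, hC.dim]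
  obtain ⟨θ, hθ, h1⟩ := theta_of_inj (isCyc_sumDiv hD hC.div) (hl_prodC hC hD hHL) (by omega) hs
  obtain ⟨γ, hγ, rfl⟩ := mem_KOp_iff.1 hθ
  obtain ⟨δ, hδ, hδ1, hδ2⟩ := curve_delta hC
  set r : W.K := W.tr C (W.map (diag C) (W.cl _ δ)) with hr
  -- the class on `X × X`
  have hT : W.push (qua X C) (γ * W.cl _ (ops.pull (kap X C) δ)) ∈
      spanCycles W (X.prod X) ((X.dim : ℤ) - c) := by
    clear h1 hθ
    induction hγ using Submodule.span_induction with
    | mem x hx =>
      obtain ⟨p, hp, z, hz, rfl⟩ := hx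
      refine Submodule.subset_span ⟨X.dim - c, by omega,
        ops.push (qua X C) (ops.mul z (ops.pull (kap X C) δ)), ?_, ?_⟩
      · refine ops.push_mem _ (ops.mul_mem hz (ops.pull_mem _ hδ)) ?_
        simp only [dim_prod, hC.dim]
        omega
      · rw [W.cl_push, W.cl_mul]
    | zero => rw [zero_mul, map_zero]; exact Submodule.zero_mem _
    | add x y _ _ hx hy => rw [add_mul, map_add]; exact Submodule.add_mem _ hx hy
    | smul a x _ hx => rw [smul_mul_assoc, map_smul]; exact Submodule.smul_mem _ _ hx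
  refine spanInjective_of_theta hHL hc (θ := r⁻¹ • W.corr (W.push (qua X C)
    (γ * W.cl _ (ops.pull (kap X C) δ)))) (Submodule.smul_mem _ _ ?_) ?_
  · exact mem_KOp_iff.2 ⟨_, hT, rfl⟩
  · intro a ha
    have k1 : W.corr (W.push (qua X C) (γ * W.cl _ (ops.pull (kap X C) δ)))
        (W.cl X D ^ c * a) = r • a := by
      have e1 : qua X C ≫ snd X X = snd _ _ ≫ fst X C := Obj.lift_snd _ _
      have e2 : qua X C ≫ fst X X = fst _ _ ≫ fst X C := Obj.lift_fst _ _
      rw [corr_apply, W.cl_pull, ← W.push_mul, ← W.push_comp, ← W.map_comp, e1, e2]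
      refine curve_push_cl hC hD (i := X.dim - c) (w := c) ?_ ha hδ1
      intro y hy
      exact h1 y (by rwa [show (X.prod C).dim - c = X.dim - c + 1 by omega])
    rw [LinearMap.smul_apply, k1, smul_smul, inv_mul_cancel₀ hδ2, one_smul]

end curve

end Pool.Agent.Q67.Mid
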