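import Pool.Agent.TH720.LB.Stm
import Pool.Agent.H914R2.KLef
import Pool.Agent.TH125.Gal.Lef

/-!
# The Lefschetz standard conjecture on products with projective spaces, with coefficients
-/

open CategoryTheory AlgebraicGeometry Finset Polynomial

universe u v

namespace Pool.Agent.Q67.Mid

open Pool.Agent.H914 Pool.Agent.W534 Pool.Agent.W537 Pool.Agent.TH720.LB VarClass Obj
  WeilCohomology

variable {k : Type u} [Field k] {𝒱 : VarClass k} {ops : CycleOps 𝒱}
  {W : WeilCohomology.{u, v} ops} {X P : 𝒱.Obj} {D : X.Cycles} {h : P.Cycles}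

/-- Hard Lefschetz for varieties which look like projective spaces. -/
lemma hl_proj (hP : IsProjLike W P h) : HardLefschetz W P h := by
  refine TH132.A.hardLefschetz_of_inj hP.div fun i hi a ha h0 => ?_
  rw [LinearMap.pow_mulLeft, LinearMap.mulLeft_apply] at h0
  apply W.nondeg
  intro b
  have hb := hP.span b
  induction hb using Submodule.span_induction with
  | mem b hb =>
    obtain ⟨l, rfl⟩ := hb
    by_cases hl : i + 2 * l = 2 * P.dim
    · have h1 : W.cl P h ^ l * a = 0 := by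
        rw [show l = (l - (P.dim - i)) + (P.dim - i) by omega, pow_add, mul_assoc, h0, mul_zero]
      rw [← W.even_comm (t_mem hP l), h1, map_zero]
    · exact W.tr_eq_zero (W.mul_mem ha (t_mem hP l)) hl
  | zero => rw [mul_zero, map_zero]
  | add b b' _ _ hb hb' => rw [mul_add, map_add, hb, hb', add_zero]
  | smul c b _ hb => rw [mul_smul_comm, map_smul, hb, smul_zero]

/-- Hard Lefschetz for the product with `P`. -/
lemma hl_prod (hP : IsProjLike W P h) (hD : X.IsCyc 1 D) (hHL : HardLefschetz W X D) :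
    HardLefschetz W (X.prod P) (sumDiv ops D h) :=
  TH125.Gal.hardLefschetz_prod hD hP.div hHL (hl_proj hP)

lemma mulLeft_pow (Y : 𝒱.Obj) (a : W.H Y) (c : ℕ) (x : W.H Y) :
    ((LinearMap.mulLeft W.K a) ^ c) x = a ^ c * x := by
  rw [LinearMap.pow_mulLeft, LinearMap.mulLeft_apply]

lemma kmem_mul {Y : 𝒱.Obj} {E : Y.Cycles} (hE : Y.IsCyc 1 E) :
    LinearMap.mulLeft W.K (W.cl Y E) ∈ KS (ROp W Y) 1 := Submodule.subset_span (rop_mulLeft hE)

/-- an inverse of the Lefschetz isomorphism from an injective operator -/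
lemma theta_of_inj {Y : 𝒱.Obj} {E : Y.Cycles} (hE : Y.IsCyc 1 E) (hHL : HardLefschetz W Y E)
    {c : ℕ} (hc : c ≤ Y.dim) (hs : SpanInjective W Y c) :
    ∃ θ ∈ KOp W Y Y (-c), ∀ a ∈ W.gr Y (Y.dim - c), θ (W.cl Y E ^ c * a) = a := by
  obtain ⟨γ, hγ, hγi⟩ := hs
  obtain ⟨θ, hθ, h1⟩ := rop_opAlg.exists_theta_of_inj (kmem_mul hE) hHL hc
    (mem_KS_iff.2 (mem_KOp_iff.2 ⟨γ, hγ, rfl⟩)) hγi
  refine ⟨θ, mem_KS_iff.1 hθ, fun a ha => ?_⟩
  rw [← mulLeft_pow]
  exact h1 a ha

lemma spanInjective_of_theta {Y : 𝒱.Obj} {E : Y.Cycles} (hHL : HardLefschetz W Y E)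
    {c : ℕ} (hc : c ≤ Y.dim) {θ : W.H Y →ₗ[W.K] W.H Y} (hθ : θ ∈ KOp W Y Y (-c))
    (h1 : ∀ a ∈ W.gr Y (Y.dim - c), θ (W.cl Y E ^ c * a) = a) : SpanInjective W Y c := by
  obtain ⟨γ, hγ, rfl⟩ := mem_KOp_iff.1 hθ
  refine ⟨γ, hγ, fun x hx h0 => ?_⟩
  obtain ⟨a, ha, rfl⟩ := hl_surj hHL hc hx
  rw [h1 a ha] at h0
  rw [h0, mul_zero]

lemma spanInjective_zero (Y : 𝒱.Obj) : SpanInjective W Y 0 := by
  obtain ⟨γ, hγ, hγi⟩ := mem_KOp_iff.1 (KOp.id (W := W) Y)
  refine ⟨γ, by simpa using hγ, fun x _ h0 => ?_⟩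
  rw [hγi] at h0
  exact h0

/-- **An injective operator beside the middle of `X × P` gives one in degree `n + m + 1` on `X`.** -/
theorem spanInjective_of_prod (hP : IsProjLike W P h) (hD : X.IsCyc 1 D)
    (hHL : HardLefschetz W X D) (hm : P.dim + 1 ≤ X.dim) (hs : SpanInjective W (X.prod P) 1) :
    SpanInjective W X (P.dim + 1) := by
  have hdim : (X.prod P).dim = X.dim + P.dim := dim_prod X P
  obtain ⟨θ, hθ, h1⟩ := theta_of_inj (isCyc_sumDiv hD hP.div) (hl_prod hP hD hHL) (by omega) hs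
  have hsq : (-1 : W.K) ^ P.dim * (-1) ^ P.dim = 1 := by
    rw [← pow_add, ← two_mul, pow_mul]; simp
  refine spanInjective_of_theta hHL hm (θ := (-1 : W.K) ^ P.dim •
    (coe W X h P.dim ∘ₗ θ ∘ₗ inc W X h 0)) ?_ ?_
  · refine Submodule.smul_mem _ _ ?_
    exact KOp.cast (KOp.comp (qop_coe hP le_rfl).kop (KOp.comp hθ (qop_inc hP 0).kop))
      (by push_cast; ring)
  · intro a ha
    have hb : (-1 : W.K) ^ P.dim • beta W D h (P.dim + 1) a ∈
        W.gr (X.prod P) ((X.prod P).dim - 1) :=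
      Submodule.smul_mem _ _ (qop_mem (qop_beta hP hD _) ha (by push_cast; omega))
    have h2 := h1 _ hb
    rw [pow_one, mul_beta_top hP hD] at h2
    rw [LinearMap.smul_apply, LinearMap.comp_apply, LinearMap.comp_apply, h2, map_smul,
      coe_beta_top hP, smul_smul, hsq, one_smul]

lemma lefschetzB_iff_span (hD : X.IsCyc 1 D) (hHL : HardLefschetz W X D) :
    LefschetzB W X D ↔ ∀ c ≤ X.dim, SpanInjective W X c := (lefschetzB_tfae hD hHL).out 0 2

/-- **The Lefschetz standard conjecture from the degree beside the middle.** -/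
theorem lefschetzB_of_beside {P : ℕ → 𝒱.Obj} {h : ∀ m, (P m).Cycles}
    (hP : ∀ m, IsProjLike W (P m) (h m)) (hdP : ∀ m, (P m).dim = m)
    (hD : X.IsCyc 1 D) (hHL : HardLefschetz W X D)
    (hs : ∀ m < X.dim, SpanInjective W (X.prod (P m)) 1) : LefschetzB W X D := by
  rw [lefschetzB_iff_span hD hHL]
  intro c hc
  cases c with
  | zero => exact spanInjective_zero X
  | succ m =>
    have := spanInjective_of_prod (hP m) hD hHL (by rw [hdP]; exact hc) (hs m (by omega))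
    rwa [hdP] at this

/-- The operators on `X` which give the operator on the product. -/
lemma exists_pieces (hD : X.IsCyc 1 D) (hHL : HardLefschetz W X D)
    (hs : ∀ e ≤ X.dim, SpanInjective W X e) (e : ℤ) :
    ∃ ν ∈ KOp W X X (-e), ∀ x ∈ grZ (W.gr X) (X.dim + e), ν x = 0 → x = 0 := by
  by_cases h0 : 0 ≤ e
  · lift e to ℕ using h0
    by_cases h1 : e ≤ X.dim
    · obtain ⟨γ, hγ, hγi⟩ := hs _ h1
      refine ⟨W.corr γ, mem_KOp_iff.2 ⟨γ, hγ, rfl⟩, fun x hx h2 => hγi x ?_ h2⟩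
      rwa [show (X.dim : ℤ) + e = ((X.dim + e : ℕ) : ℤ) by push_cast; ring, grZ_natCast] at hx
    · refine ⟨0, Submodule.zero_mem _, fun x hx _ => ?_⟩
      rw [show (X.dim : ℤ) + e = ((X.dim + e : ℕ) : ℤ) by push_cast; ring, grZ_natCast,
        W.gr_eq_bot X _ (by omega)] at hx
      exact (Submodule.mem_bot _).1 hx
  · obtain ⟨f, rfl⟩ : ∃ f : ℕ, e = -(f : ℤ) := ⟨(-e).toNat, by omega⟩
    refine ⟨LinearMap.mulLeft W.K (W.cl X D ^ f), KOp.cast (qop_mul_pow hD _).kop (by omega),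
      fun x hx h2 => ?_⟩
    rw [LinearMap.mulLeft_apply] at h2
    by_cases h3 : f ≤ X.dim
    · rw [show (X.dim : ℤ) + -(f : ℤ) = ((X.dim - f : ℕ) : ℤ) by omega, grZ_natCast] at hx
      refine (hHL (X.dim - f) (by omega)).1 x hx ?_
      rw [mulLeft_pow, show X.dim - (X.dim - f) = f by omega]
      exact h2
    · rw [grZ_of_neg (by omega)] at hx
      exact (Submodule.mem_bot _).1 hx

/-- Injective operators on `X` give injective operators on `X × P`. -/
theorem spanInjective_prod (hP : IsProjLike W P h) (hD : X.IsCyc 1 D)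
    (hHL : HardLefschetz W X D) (hs : ∀ e ≤ X.dim, SpanInjective W X e) (c : ℕ) :
    SpanInjective W (X.prod P) c := by
  classical
  have hdim : (X.prod P).dim = X.dim + P.dim := dim_prod X P
  choose ν hν hνi using fun a : ℕ => exists_pieces hD hHL hs ((P.dim : ℤ) + c - 2 * a)
  set Φ : W.H (X.prod P) →ₗ[W.K] W.H (X.prod P) :=
    ∑ a ∈ range (P.dim + 1), inc W X h (P.dim - a) ∘ₗ ν a ∘ₗ coe W X h a with hΦ
  have hΦm : Φ ∈ KOp W (X.prod P) (X.prod P) (-c) := by
    refine Submodule.sum_mem _ fun a ha => ?_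
    rw [Finset.mem_range] at ha
    exact KOp.cast (KOp.comp (qop_inc hP _).kop (KOp.comp (hν a) (qop_coe hP (by omega)).kop))
      (by omega)
  have hcoe : ∀ y a, a ≤ P.dim → coe W X h (P.dim - a) (Φ y) = ν a (coe W X h a y) := by
    intro y a ha
    rw [hΦ, LinearMap.sum_apply, map_sum, Finset.sum_eq_single_of_mem a (by simp; omega)]
    · rw [LinearMap.comp_apply, LinearMap.comp_apply, coe_inc hP (Nat.sub_le _ _), if_pos rfl]
    · intro b hb hba
      rw [Finset.mem_range] at hb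
      rw [LinearMap.comp_apply, coe_inc hP (Nat.sub_le _ _), if_neg (by omega)]
  obtain ⟨γ, hγ, hγΦ⟩ := mem_KOp_iff.1 hΦm
  refine ⟨γ, hγ, fun y hy h0 => ?_⟩
  rw [hγΦ] at h0
  rw [← decomp hP y]
  refine Finset.sum_eq_zero fun a ha => ?_
  rw [Finset.mem_range] at ha
  have h1 := hcoe y a (by omega)
  rw [h0, map_zero] at h1
  have h2 : coe W X h a y = 0 := by
    refine hνi a _ ?_ h1.symm
    have h3 := KOp.isHom (qop_coe (W := W) (X := X) hP (a := a) (by omega)).kop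
      ((X.prod P).dim + c : ℕ) y (by rw [grZ_natCast]; exact hy)
    rwa [show (((X.prod P).dim + c : ℕ) : ℤ) + 2 * -(a : ℤ) =
      (X.dim : ℤ) + ((P.dim : ℤ) + c - 2 * a) by push_cast; rw [hdim]; push_cast; ring] at h3
  rw [h2, map_zero]

/-- **The Lefschetz standard conjecture for products with projective spaces.** -/
theorem lefschetzB_prod (hP : IsProjLike W P h) (hD : X.IsCyc 1 D) (hHL : HardLefschetz W X D)
    (hB : LefschetzB W X D) : LefschetzB W (X.prod P) (sumDiv ops D h) := by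
  rw [lefschetzB_iff_span (isCyc_sumDiv hD hP.div) (hl_prod hP hD hHL)]
  exact fun c _ => spanInjective_prod hP hD hHL ((lefschetzB_iff_span hD hHL).1 hB) c

/-- The powers of the operator `Λ`. -/
lemma exists_lam {Y : 𝒱.Obj} {E : Y.Cycles} (hE : Y.IsCyc 1 E) (hHL : HardLefschetz W Y E)
    (hB : LefschetzB W Y E) : ∃ Φ ∈ KOp W Y Y (-1), ∀ c ≤ Y.dim, ∀ a ∈ W.gr Y (Y.dim - c),
      (Φ ^ c) (W.cl Y E ^ c * a) = a := by
  obtain ⟨Φ, hΦ, hLam⟩ := lefschetzB_iff_rop.1 hB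
  have hLh : IsHom (W.gr Y) 2 (LinearMap.mulLeft W.K (W.cl Y E)) := by
    simpa using rop_opAlg.hom (rop_mulLeft (W := W) hE)
  refine ⟨Φ, mem_KS_iff.1 (Submodule.subset_span hΦ), fun c hc a ha => ?_⟩
  rw [← mulLeft_pow]
  exact lam_pow_L_pow hLh W_hbd hHL hLam hc ha

end Pool.Agent.Q67.Mid
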