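import Pool.Agent.Q67.Mid.Split

/-!
# The Lefschetz standard conjecture in and beside the middle degree
-/

open CategoryTheory AlgebraicGeometry Finset

universe u v

namespace Pool.Agent.Q67.Mid

open Pool.Agent.H914 Pool.Agent.W534 Pool.Agent.W537 Pool.Agent.TH720.LB VarClass Obj
  WeilCohomology

variable {k : Type u} [Field k] {𝒱 : VarClass k} {ops : CycleOps 𝒱}
  {W : WeilCohomology.{u, v} ops} {P : ℕ → 𝒱.Obj} {h : ∀ m, (P m).Cycles}

/-- A `K`-linear combination of the classes of cycles of codimension `dim Y - 1` on `Y × Y` induces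
an injective operator on the cohomology of `Y` in the degree `dim Y + 1`. -/
def BesideMiddle (W : WeilCohomology.{u, v} ops) (Y : 𝒱.Obj) (_ : Y.Cycles) : Prop :=
  SpanInjective W Y 1

lemma besideMiddle_of_lefschetzB {Y : 𝒱.Obj} {E : Y.Cycles} (hE : Y.IsCyc 1 E)
    (hHL : HardLefschetz W Y E) (hB : LefschetzB W Y E) : BesideMiddle W Y E := by
  by_cases hY : 1 ≤ Y.dim
  · exact (lefschetzB_iff_span hE hHL).1 hB 1 hY
  · refine ⟨0, Submodule.zero_mem _, fun x hx _ => ?_⟩
    rw [W.gr_eq_bot Y _ (by omega)] at hx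
    exact (Submodule.mem_bot _).1 hx

/-- The criterion for one variety. -/
theorem beside_iff (hP : ∀ m, IsProjLike W (P m) (h m)) (hdP : ∀ m, (P m).dim = m)
    {X : 𝒱.Obj} {D : X.Cycles} (hD : X.IsCyc 1 D) (hHL : HardLefschetz W X D) :
    LefschetzB W X D ↔ ∀ m < X.dim, BesideMiddle W (X.prod (P m)) (sumDiv ops D (h m)) :=
  ⟨fun hB m _ => besideMiddle_of_lefschetzB (isCyc_sumDiv hD (hP m).div)
    (hl_prod (hP m) hD hHL) (lefschetzB_prod (hP m) hD hHL hB),
    lefschetzB_of_beside hP hdP hD hHL⟩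

/-- The criterion in the middle degree for one variety. -/
theorem split_iff (hP : ∀ m, IsProjLike W (P m) (h m)) (hdP : ∀ m, (P m).dim = m)
    {X : 𝒱.Obj} {D : X.Cycles} (hD : X.IsCyc 1 D) (hHL : HardLefschetz W X D) :
    LefschetzB W X D ↔
      ∀ m, 1 ≤ m → m ≤ X.dim → MiddleSplits W (X.prod (P m)) (sumDiv ops D (h m)) :=
  ⟨fun hB m _ _ => middleSplits_of_lefschetzB (isCyc_sumDiv hD (hP m).div)
    (hl_prod (hP m) hD hHL) (lefschetzB_prod (hP m) hD hHL hB),
    lefschetzB_of_split hP hdP hD hHL⟩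

section

variable {C : 𝒱.Obj} {c : C.Cycles} {Pol : ∀ X : 𝒱.Obj, X.Cycles → Prop}

/-- the passage from a class of dimensions to all dimensions -/
lemma all_of_some (hS : Setting W P h C c Pol) {q : ℕ → Prop} {s : ℕ → ℕ}
    {S : ∀ X : 𝒱.Obj, X.Cycles → Prop} (hq : ∀ n m, q (n + s m) ∨ q (n + 1 + s m))
    (hstep : ∀ (X : 𝒱.Obj) (D : X.Cycles), Pol X D → ∀ m, 1 ≤ m → m ≤ X.dim →
      S (X.prod (P (s m))) (sumDiv ops D (h (s m))) → SpanInjective W X m)
    (hall : ForAll Pol q S) : ForAll Pol (fun _ => True) (LefschetzB W) := by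
  intro X D hX _
  have hD := hS.div X D hX
  have hHL := hS.hard X D hX
  rw [lefschetzB_iff_span hD hHL]
  intro m hm
  rcases Nat.eq_zero_or_pos m with rfl | hpos
  · exact spanInjective_zero X
  · rcases hq X.dim m with h1 | h1
    · refine hstep X D hX m hpos hm (hall _ _ (hS.prodP _ _ _ hX) ?_)
      rwa [dim_prod, hS.dimP]
    · refine spanInjective_of_curve hS.curve.to hD hHL hm ?_
      refine hstep _ _ (hS.prodC _ _ hX) m hpos (by rw [dim_prod]; omega)
        (hall _ _ (hS.prodP _ _ _ (hS.prodC _ _ hX)) ?_)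
      rwa [dim_prod, dim_prod, hS.dimP, hS.curve.dim]

lemma beside_step (hS : Setting W P h C c Pol) (X : 𝒱.Obj) (D : X.Cycles) (hX : Pol X D) (m : ℕ)
    (h1 : 1 ≤ m) (hm : m ≤ X.dim)
    (hs : BesideMiddle W (X.prod (P (m - 1))) (sumDiv ops D (h (m - 1)))) :
    SpanInjective W X m := by
  have h2 := spanInjective_of_prod (hS.proj (m - 1)).to (hS.div _ _ hX) (hS.hard _ _ hX)
    (by rw [hS.dimP]; omega) hs
  rwa [hS.dimP, Nat.sub_add_cancel h1] at h2

lemma split_step (hS : Setting W P h C c Pol) (X : 𝒱.Obj) (D : X.Cycles) (hX : Pol X D) (m : ℕ)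
    (h1 : 1 ≤ m) (hm : m ≤ X.dim)
    (hs : MiddleSplits W (X.prod (P m)) (sumDiv ops D (h m))) :
    SpanInjective W X m := by
  have h2 := spanInjective_of_split (hS.proj m).to (hS.div _ _ hX) (hS.hard _ _ hX)
    (by rw [hS.dimP]; omega) (by rw [hS.dimP]; omega) hs
  rwa [hS.dimP] at h2

/-- **The Lefschetz standard conjecture for all varieties and the degree beside the middle.** -/
theorem beside_tfae (hS : Setting W P h C c Pol) :
    List.TFAE [
      ForAll Pol (fun _ => True) (LefschetzB W),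
      ForAll Pol (fun _ => True) (BesideMiddle W),
      ForAll Pol Odd (BesideMiddle W),
      ForAll Pol (fun n => Even n ∧ 0 < n) (BesideMiddle W)] := by
  tfae_have 1 → 2 := fun hB X D hX _ =>
    besideMiddle_of_lefschetzB (hS.div _ _ hX) (hS.hard _ _ hX) (hB X D hX trivial)
  tfae_have 2 → 3 := fun hB X D hX _ => hB X D hX trivial
  tfae_have 2 → 4 := fun hB X D hX _ => hB X D hX trivial
  tfae_have 3 → 1 := by
    intro hB
    refine all_of_some hS (s := fun m => m - 1) (fun n m => ?_) (beside_step hS) hB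
    rcases Nat.even_or_odd (n + (m - 1)) with h1 | h1
    · right
      rw [show n + 1 + (m - 1) = n + (m - 1) + 1 by ring]
      exact h1.add_one
    · exact Or.inl h1
  tfae_have 4 → 1 := by
    intro hB X D hX _
    have hD := hS.div X D hX
    have hHL := hS.hard X D hX
    rw [lefschetzB_iff_span hD hHL]
    intro m hm
    rcases Nat.eq_zero_or_pos m with rfl | hpos
    · exact spanInjective_zero X
    · rcases Nat.even_or_odd (X.dim + (m - 1)) with h1 | h1
      · refine beside_step hS X D hX m hpos hm (hB _ _ (hS.prodP _ _ _ hX) ?_)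
        rw [dim_prod, hS.dimP]
        exact ⟨h1, by omega⟩
      · refine spanInjective_of_curve hS.curve.to hD hHL hm ?_
        refine beside_step hS _ _ (hS.prodC _ _ hX) m hpos (by rw [dim_prod]; omega)
          (hB _ _ (hS.prodP _ _ _ (hS.prodC _ _ hX)) ?_)
        rw [dim_prod, dim_prod, hS.dimP, hS.curve.dim]
        rw [show X.dim + 1 + (m - 1) = X.dim + (m - 1) + 1 by ring]
        exact ⟨h1.add_one, by omega⟩
  tfae_finish

/-- **The Lefschetz standard conjecture for all varieties and the middle degree.** -/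
theorem split_tfae (hS : Setting W P h C c Pol) :
    List.TFAE [
      ForAll Pol (fun _ => True) (LefschetzB W),
      ForAll Pol (fun _ => True) (MiddleSplits W),
      ForAll Pol Even (MiddleSplits W),
      ForAll Pol Odd (MiddleSplits W)] := by
  tfae_have 1 → 2 := fun hB X D hX _ =>
    middleSplits_of_lefschetzB (hS.div _ _ hX) (hS.hard _ _ hX) (hB X D hX trivial)
  tfae_have 2 → 3 := fun hB X D hX _ => hB X D hX trivial
  tfae_have 2 → 4 := fun hB X D hX _ => hB X D hX trivial
  tfae_have 3 → 1 := by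
    intro hB
    refine all_of_some hS (s := fun m => m) (fun n m => ?_) (split_step hS) hB
    rcases Nat.even_or_odd (n + m) with h1 | h1
    · exact Or.inl h1
    · right
      rw [show n + 1 + m = n + m + 1 by ring]
      exact h1.add_one
  tfae_have 4 → 1 := by
    intro hB
    refine all_of_some hS (s := fun m => m) (fun n m => ?_) (split_step hS) hB
    rcases Nat.even_or_odd (n + m) with h1 | h1
    · right
      rw [show n + 1 + m = n + m + 1 by ring]
      exact h1.add_one
    · exact Or.inl h1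
  tfae_finish

end

end Pool.Agent.Q67.Mid
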