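import Pool.Agent.Y133.Half.DLaw
import Pool.Agent.H447R3.DegB
import Pool.Agent.Q67.Mid.Main

/-!
# The zero-infinity law for numerical equivalence and the Lefschetz standard conjecture
-/

open CategoryTheory AlgebraicGeometry Filter Topology

universe u v

namespace Pool.Agent.Q67.Mid

open Pool.Agent.H914 Pool.Agent.H914.VarClass Pool.Agent.H914.VarClass.Obj
  Pool.Agent.H914.WeilCohomology Pool.Agent.Y133.Half Pool.Agent.H447

variable {k : Type u} [Field k] {𝒱 : VarClass k} {ops : CycleOps 𝒱}

/-- Conjecture D for all powers of `X`. -/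
def DForPowers (W : WeilCohomology.{u, v} ops) (X : 𝒱.Obj) : Prop := ∀ n, HomEqNum W (pw X n)

/-- Conjecture B for `X` and all divisors with hard Lefschetz. -/
def BForX (W : WeilCohomology.{u, v} ops) (X : 𝒱.Obj) : Prop :=
  ∀ D, X.IsCyc 1 D → HardLefschetz W X D → LefschetzB W X D

lemma b_of_d {W : WeilCohomology.{u, v} ops} {X : 𝒱.Obj} (h : DForPowers W X) : BForX W X := by
  intro D hD hHL
  by_cases hn : X.dim = 0
  · refine lefschetzB_of_homEqNumIn hD hHL ?_
    intro z hz _
    have := W.cl_mem hz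
    rw [W.gr_eq_bot _ _ (by rw [dim_prod]; omega)] at this
    exact (Submodule.mem_bot _).1 this
  · exact lefschetzB_of_homEqNumIn hD hHL (h 1 (X.dim + 1) (by
      change X.dim + 1 ≤ (X.prod X).dim
      rw [dim_prod]; omega))

/-- **The zero-infinity law.** -/
theorem zero_infinity (W : WeilCohomology.{u, v} ops) (X : 𝒱.Obj) :
    (DForPowers W X ∧ BForX W X) ∨
      Tendsto (fun n => (cycRank ops (pw X n) : ℝ) / algDim W (pw X n)) atTop (𝓝 0) := by
  rcases d_law W X with h | h
  · exact Or.inl ⟨h, b_of_d h⟩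
  · exact Or.inr h

/-- **The criterion**: a positive proportion for infinitely many powers suffices. -/
theorem of_frequently (W : WeilCohomology.{u, v} ops) (X : 𝒱.Obj) {ε : ℝ} (hε : 0 < ε)
    (h : ∃ᶠ n in atTop, ε * algDim W (pw X n) ≤ cycRank ops (pw X n) ∧ 0 < algDim W (pw X n)) :
    DForPowers W X ∧ BForX W X := by
  rcases zero_infinity W X with h1 | h1
  · exact h1
  exfalso
  have h2 := h1.eventually (gt_mem_nhds hε)
  obtain ⟨n, ⟨hn, hpos⟩, hn2⟩ := (h.and_eventually h2).exists
  have hp : (0 : ℝ) < algDim W (pw X n) := by exact_mod_cast hpos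
  rw [div_lt_iff₀ hp] at hn2
  linarith

end Pool.Agent.Q67.Mid
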