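import Pool.Agent.Q67.Mid.Curve

/-!
# The splitting of the middle degree, with coefficients
-/

open CategoryTheory AlgebraicGeometry Finset Polynomial

universe u v

namespace Pool.Agent.Q67.Mid

open Pool.Agent.H914 Pool.Agent.W534 Pool.Agent.W537 Pool.Agent.TH720.LB VarClass Obj
  WeilCohomology

variable {k : Type u} [Field k] {𝒱 : VarClass k} {ops : CycleOps 𝒱}

section Alg

variable {K : Type*} [Field K] {A : Type*} [Ring A] [Algebra K A]

/-- `T` kills the elements of `gr i` which are killed by the multiplication with `ξ`, and it does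
not kill `ξ b` if `b` is a non-zero element of degree `i - 2`. -/
def Separates (gr : ℕ → Submodule K A) (i : ℕ) (ξ : A) (T : A →ₗ[K] A) : Prop :=
  (∀ a ∈ gr i, ξ * a = 0 → T a = 0) ∧ ∀ j, j + 2 = i → ∀ b ∈ gr j, T (ξ * b) = 0 → b = 0

end Alg

/-- A `K`-linear combination of the classes of cycles of codimension `dim Y - 1` on `Y × Y` kills
the primitive classes of the middle degree and is injective on the products of the class `ξ` of `E`
with the classes of the middle degree minus two. -/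
def MiddleSplits (W : WeilCohomology.{u, v} ops) (Y : 𝒱.Obj) (E : Y.Cycles) : Prop :=
  ∃ γ ∈ spanCycles W (Y.prod Y) ((Y.dim : ℤ) - 1),
    Separates (W.gr Y) Y.dim (W.cl Y E) (W.corr γ)

variable {W : WeilCohomology.{u, v} ops} {X P : 𝒱.Obj} {D : X.Cycles} {h : P.Cycles}

/-- The exact splitting from a separating operator. -/
lemma exists_split {Y : 𝒱.Obj} {E : Y.Cycles} (hE : Y.IsCyc 1 E) (hs : MiddleSplits W Y E) :
    ∃ R ∈ KOp W Y Y (-1), (∀ a ∈ W.gr Y Y.dim, W.cl Y E * a = 0 → R a = 0) ∧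
      ∀ j, j + 2 = Y.dim → ∀ b ∈ W.gr Y j, R (W.cl Y E * b) = b := by
  obtain ⟨γ, hγ, h1, h2⟩ := hs
  have hR : W.corr γ ∈ KOp W Y Y (-1) := mem_KOp_iff.2 ⟨γ, hγ, rfl⟩
  by_cases hY : 2 ≤ Y.dim
  · obtain ⟨j, hj⟩ : ∃ j, j + 2 = Y.dim := ⟨Y.dim - 2, by omega⟩
    have hR' : W.corr γ ∈ KS (ROp W Y) (-1) := mem_KS_iff.2 hR
    have hEL : W.corr γ * LinearMap.mulLeft W.K (W.cl Y E) ∈ KS (ROp W Y) 0 :=
      rop_opAlg.kspan.cast (rop_opAlg.kspan.mul hR' (kmem_mul hE)) (by ring)
    have hgr : ∀ x ∈ W.gr Y j, (W.corr γ * LinearMap.mulLeft W.K (W.cl Y E)) x ∈ W.gr Y j := by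
      intro x hx
      have h3 := rop_opAlg.kspan.hom hEL (j : ℤ) x (by rw [grZ_natCast]; exact hx)
      rwa [mul_zero, add_zero, grZ_natCast] at h3
    obtain ⟨q, hq⟩ := exists_inv_on (E := W.corr γ * LinearMap.mulLeft W.K (W.cl Y E))
      (S := W.gr Y j) hgr (fun x hx h0 => h2 j hj x hx h0)
    refine ⟨aeval (W.corr γ * LinearMap.mulLeft W.K (W.cl Y E)) q * W.corr γ, ?_, ?_, ?_⟩
    · exact mem_KS_iff.1 (rop_opAlg.kspan.cast
        (rop_opAlg.kspan.mul (rop_opAlg.kspan_aeval hEL q) hR') (by ring))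
    · intro a ha h0
      rw [Module.End.mul_apply, h1 a ha h0, map_zero]
    · intro j' hj' b hb
      obtain rfl : j' = j := by omega
      exact hq b hb
  · exact ⟨0, Submodule.zero_mem _, fun _ _ _ => rfl, fun j hj => by omega⟩

/-- **A separating operator in the middle degree of `X × P` gives an injective operator in degree
`n + m` on `X`.** -/
theorem spanInjective_of_split (hP : IsProjLike W P h) (hD : X.IsCyc 1 D)
    (hHL : HardLefschetz W X D) (hm : 1 ≤ P.dim) (hmn : P.dim ≤ X.dim)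
    (hB : MiddleSplits W (X.prod P) (sumDiv ops D h)) : SpanInjective W X P.dim := by
  have hdim : (X.prod P).dim = X.dim + P.dim := dim_prod X P
  obtain ⟨R, hRq, h1, h2⟩ := exists_split (isCyc_sumDiv hD hP.div) hB
  have h1' : ∀ a ∈ W.gr (X.prod P) (X.dim + P.dim), W.cl _ (sumDiv ops D h) * a = 0 →
      R a = 0 := by
    intro a ha h0
    exact h1 a (by rwa [hdim]) h0
  have h2' : ∀ b ∈ W.gr (X.prod P) (X.dim + P.dim - 2), R (W.cl _ (sumDiv ops D h) * b) = b :=
    h2 _ (by omega)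
  set u : W.H X →ₗ[W.K] W.H X := coe W X h (P.dim - 1) ∘ₗ R ∘ₗ inc W X h 0 with hu
  have huq : u ∈ KOp W X X (-(P.dim : ℤ)) :=
    KOp.cast (KOp.comp (qop_coe hP (Nat.sub_le _ _)).kop (KOp.comp hRq (qop_inc hP 0).kop))
      (by omega)
  set e : W.K := (-1 : W.K) ^ P.dim with he
  have hsq : e * e = 1 := by
    rw [he, ← pow_add, ← two_mul, pow_mul]; simp
  have hne : ((P.dim : W.K) + 1) ≠ 0 := Nat.cast_add_one_ne_zero (R := W.K) P.dim
  -- the operator
  refine spanInjective_of_theta hHL hmn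
    (θ := (-e * ((P.dim : W.K) + 2)) • u - ((P.dim : W.K) + 1) • (u ∘ₗ
      LinearMap.mulLeft W.K (W.cl X D ^ P.dim) ∘ₗ u)) ?_ ?_
  · refine Submodule.sub_mem _ (Submodule.smul_mem _ _ huq) (Submodule.smul_mem _ _ ?_)
    exact KOp.cast (KOp.comp huq (KOp.comp (qop_mul_pow hD P.dim).kop huq)) (by ring)
  · intro a ha
    obtain ⟨c', c'', rfl, hc', hc0, hc''⟩ := prim_decomp hD hHL hmn ha
    have k1 : u (W.cl X D ^ P.dim * c') = (-e / ((P.dim : W.K) + 1)) • c' :=
      split_prim hP hD hm hmn h1' h2' hc' hc0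
    have k2 : u (W.cl X D ^ P.dim * c'') = (-e) • c'' := by
      rcases hc'' with rfl | ⟨j, hj, b, hb, rfl⟩
      · rw [mul_zero, map_zero, smul_zero]
      · exact split_img hP hD hm h2' hj hb
    simp only [LinearMap.sub_apply, LinearMap.smul_apply, LinearMap.comp_apply,
      LinearMap.mulLeft_apply, mul_add, map_add, k1, k2, map_smul]
    match_scalars
    · field_simp
      linear_combination ((P.dim : W.K) + 1) * hsq
    · linear_combination hsq

/-- **The Lefschetz standard conjecture from the middle degree.** -/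
theorem lefschetzB_of_split {P : ℕ → 𝒱.Obj} {h : ∀ m, (P m).Cycles}
    (hP : ∀ m, IsProjLike W (P m) (h m)) (hdP : ∀ m, (P m).dim = m)
    (hD : X.IsCyc 1 D) (hHL : HardLefschetz W X D)
    (hs : ∀ m, 1 ≤ m → m ≤ X.dim → MiddleSplits W (X.prod (P m)) (sumDiv ops D (h m))) :
    LefschetzB W X D := by
  rw [lefschetzB_iff_span hD hHL]
  intro c hc
  rcases Nat.eq_zero_or_pos c with rfl | hpos
  · exact spanInjective_zero X
  · have := spanInjective_of_split (hP c) hD hHL (by rw [hdP]; exact hpos) (by rw [hdP]; exact hc)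
      (hs c hpos hc)
    rwa [hdP] at this

/-- The Lefschetz standard conjecture gives separating operators. -/
theorem middleSplits_of_lefschetzB {Y : 𝒱.Obj} {E : Y.Cycles} (hE : Y.IsCyc 1 E)
    (hHL : HardLefschetz W Y E) (hB : LefschetzB W Y E) : MiddleSplits W Y E := by
  by_cases hY : 2 ≤ Y.dim
  · obtain ⟨Φ, hΦ, h1⟩ := exists_lam hE hHL hB
    have hR : (Φ ^ 2) ∘ₗ LinearMap.mulLeft W.K (W.cl Y E) ∈ KOp W Y Y (-1) := by
      have h2 := mem_KS_iff.2 hΦ
      exact mem_KS_iff.1 (rop_opAlg.kspan.cast (rop_opAlg.kspan.mul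
        (rop_opAlg.kspan.pow h2 2) (kmem_mul hE)) (by norm_num))
    obtain ⟨γ, hγ, hγR⟩ := mem_KOp_iff.1 hR
    refine ⟨γ, hγ, ?_, ?_⟩
    · intro a _ h0
      rw [hγR, LinearMap.comp_apply, LinearMap.mulLeft_apply, h0, map_zero]
    · intro j hj b hb h0
      rw [hγR, LinearMap.comp_apply, LinearMap.mulLeft_apply, ← mul_assoc, ← pow_two,
        h1 2 hY b (by rwa [show Y.dim - 2 = j by omega])] at h0
      exact h0
  · refine ⟨0, Submodule.zero_mem _, ?_, fun j hj => by omega⟩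
    intro a _ _
    rw [corr_zero, LinearMap.zero_apply]

end Pool.Agent.Q67.Mid
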